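import Mathlib

set_option autoImplicit false

open Finset Classical

namespace Pool.Agent.Helper43.TJoin

set_option linter.unusedSectionVars false
set_option linter.unusedDecidableInType false

variable {V E : Type*} [Fintype V] [Fintype E] [DecidableEq V] [DecidableEq E]

/-- indicator of a vertex, with values in the field with two elements -/
noncomputable def one (a v : V) : ZMod 2 := if a = v then 1 else 0

/-- mod 2 boundary of a set of edges -/
noncomputable def bd (s t : E → V) (J : Finset E) (v : V) : ZMod 2 :=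
  ∑ e ∈ J, (one (s e) v + one (t e) v)

noncomputable def cut (s t : E → V) (S : Finset V) : Finset E :=
  univ.filter (fun e => ¬ (s e ∈ S ↔ t e ∈ S))

lemma sum_symmDiff_two (A B : Finset E) (f : E → ZMod 2) :
    ∑ e ∈ symmDiff A B, f e = ∑ e ∈ A, f e + ∑ e ∈ B, f e := by
  have h1 : symmDiff A B = (A \ B) ∪ (B \ A) := rfl
  have hd : Disjoint (A \ B) (B \ A) := by
    rw [Finset.disjoint_left]; intro x hx hy
    simp only [mem_sdiff] at hx hy; exact hx.2 hy.1
  rw [h1, sum_union hd]
  have hA : ∑ e ∈ A, f e = ∑ e ∈ A \ B, f e + ∑ e ∈ A ∩ B, f e := by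
    rw [← sum_union (by
      rw [Finset.disjoint_left]; intro x hx hy
      simp only [mem_sdiff, mem_inter] at hx hy; exact hx.2 hy.2)]
    congr 1; ext x; simp only [mem_union, mem_sdiff, mem_inter]; tauto
  have hB : ∑ e ∈ B, f e = ∑ e ∈ B \ A, f e + ∑ e ∈ A ∩ B, f e := by
    rw [← sum_union (by
      rw [Finset.disjoint_left]; intro x hx hy
      simp only [mem_sdiff, mem_inter] at hx hy; exact hx.2 hy.1)]
    congr 1; ext x; simp only [mem_union, mem_sdiff, mem_inter]; tauto
  rw [hA, hB]
  have : ∑ e ∈ A ∩ B, f e + ∑ e ∈ A ∩ B, f e = 0 := CharTwo.add_self_eq_zero _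
  linear_combination -this

lemma sum_symmDiff_real (A B : Finset E) (f : E → ℝ) :
    ∑ e ∈ symmDiff A B, f e = ∑ e ∈ A, f e + ∑ e ∈ B, f e - 2 * ∑ e ∈ A ∩ B, f e := by
  have h1 : symmDiff A B = (A \ B) ∪ (B \ A) := rfl
  have hd : Disjoint (A \ B) (B \ A) := by
    rw [Finset.disjoint_left]; intro x hx hy
    simp only [mem_sdiff] at hx hy; exact hx.2 hy.1
  rw [h1, sum_union hd]
  have hA : ∑ e ∈ A, f e = ∑ e ∈ A \ B, f e + ∑ e ∈ A ∩ B, f e := by
    rw [← sum_union (by
      rw [Finset.disjoint_left]; intro x hx hy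
      simp only [mem_sdiff, mem_inter] at hx hy; exact hx.2 hy.2)]
    congr 1; ext x; simp only [mem_union, mem_sdiff, mem_inter]; tauto
  have hB : ∑ e ∈ B, f e = ∑ e ∈ B \ A, f e + ∑ e ∈ A ∩ B, f e := by
    rw [← sum_union (by
      rw [Finset.disjoint_left]; intro x hx hy
      simp only [mem_sdiff, mem_inter] at hx hy; exact hx.2 hy.1)]
    congr 1; ext x; simp only [mem_union, mem_sdiff, mem_inter]; tauto
  rw [hA, hB]; ring

lemma bd_symmDiff (s t : E → V) (A B : Finset E) (v : V) :
    bd s t (symmDiff A B) v = bd s t A v + bd s t B v := by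
  unfold bd; exact sum_symmDiff_two A B _

lemma bd_single (s t : E → V) (e : E) (v : V) :
    bd s t {e} v = one (s e) v + one (t e) v := by
  unfold bd; simp

lemma bd_empty (s t : E → V) (v : V) : bd s t ∅ v = 0 := by
  unfold bd; simp

lemma sum_one (S : Finset V) (a : V) : ∑ v ∈ S, one a v = if a ∈ S then 1 else 0 := by
  unfold one; simp

lemma sum_bd (s t : E → V) (J : Finset E) (S : Finset V) :
    ∑ v ∈ S, bd s t J v = ((J ∩ cut s t S).card : ZMod 2) := by
  unfold bd
  rw [sum_comm]
  have : ∀ e ∈ J, ∑ v ∈ S, (one (s e) v + one (t e) v) = if e ∈ cut s t S then (1 : ZMod 2) else 0 := by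
    intro e _
    rw [sum_add_distrib, sum_one, sum_one]
    unfold cut
    simp only [mem_filter, mem_univ, true_and]
    by_cases h1 : s e ∈ S <;> by_cases h2 : t e ∈ S <;> simp [h1, h2]
    exact CharTwo.add_self_eq_zero _
  rw [sum_congr rfl this, sum_ite, sum_const_zero, add_zero, sum_const, nsmul_eq_mul, mul_one]
  congr 2

lemma mem_cut (s t : E → V) (S : Finset V) (e : E) :
    e ∈ cut s t S ↔ ¬ (s e ∈ S ↔ t e ∈ S) := by
  unfold cut; simp

/-- Sum of costs. -/
lemma sum_symmDiff_zero (A Q : Finset E) (c : E → ℝ) (hQ : ∀ e ∈ Q, c e = 0) :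
    ∑ e ∈ symmDiff A Q, c e = ∑ e ∈ A, c e := by
  rw [sum_symmDiff_real]
  have h1 : ∑ e ∈ Q, c e = 0 := sum_eq_zero hQ
  have h2 : ∑ e ∈ A ∩ Q, c e = 0 := sum_eq_zero (fun e he => hQ e (mem_inter.mp he).2)
  rw [h1, h2]; ring

lemma two_cancel (x y : ZMod 2) : x + y + y = x := by
  have : y + y = 0 := CharTwo.add_self_eq_zero _
  linear_combination this

/-- zero cost connection -/
def Z (s t : E → V) (c : E → ℝ) (u v : V) : Prop :=
  ∃ Q : Finset E, (∀ e ∈ Q, c e = 0) ∧ ∀ x, bd s t Q x = one u x + one v x

lemma Z_refl (s t : E → V) (c : E → ℝ) (u : V) : Z s t c u u := by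
  refine ⟨∅, by simp, fun x => ?_⟩
  rw [bd_empty]; exact (CharTwo.add_self_eq_zero _).symm

lemma Z_symm (s t : E → V) (c : E → ℝ) {u v : V} (h : Z s t c u v) : Z s t c v u := by
  obtain ⟨Q, h1, h2⟩ := h
  exact ⟨Q, h1, fun x => by rw [h2, add_comm]⟩

lemma Z_trans (s t : E → V) (c : E → ℝ) {u v w : V} (h : Z s t c u v) (h' : Z s t c v w) :
    Z s t c u w := by
  obtain ⟨Q, h1, h2⟩ := h
  obtain ⟨Q', h1', h2'⟩ := h'
  refine ⟨symmDiff Q Q', ?_, fun x => ?_⟩
  · intro e he
    rw [Finset.mem_symmDiff] at he
    rcases he with he | he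
    · exact h1 e he.1
    · exact h1' e he.1
  · rw [bd_symmDiff, h2, h2']
    have : one v x + one v x = 0 := CharTwo.add_self_eq_zero _
    linear_combination this

lemma Z_edge (s t : E → V) (c : E → ℝ) (e : E) (he : c e = 0) : Z s t c (s e) (t e) :=
  ⟨{e}, by simpa using he, fun x => bd_single s t e x⟩

/-- The key combinatorial lemma: a common star cut. -/
lemma exists_cut (s t : E → V) (c : E → ℝ) (hc : ∀ e, 0 ≤ c e) (F : Finset E)
    (hF : ∀ J : Finset E, (∀ v, bd s t J v = bd s t F v) → ∑ e ∈ F, c e ≤ ∑ e ∈ J, c e)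
    (hpos : 0 < ∑ e ∈ F, c e) :
    ∃ S : Finset V, (∀ e ∈ cut s t S, 0 < c e) ∧
      ∀ J : Finset E, (∀ v, bd s t J v = bd s t F v) → ∑ e ∈ J, c e = ∑ e ∈ F, c e →
        (J ∩ cut s t S).card = 1 := by
  -- the finite set of candidates
  let 𝒥 : Finset (Finset E × V × V) :=
    univ.filter (fun q => ∀ v, bd s t q.1 v = bd s t F v + one q.2.1 v + one q.2.2 v)
  -- positive edge
  obtain ⟨e0, he0, hce0⟩ : ∃ e ∈ F, 0 < c e := by
    by_contra hcon
    push Not at hcon
    have : ∑ e ∈ F, c e ≤ 0 := sum_nonpos hcon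
    linarith
  have hmem0 : (symmDiff F {e0}, s e0, t e0) ∈ 𝒥 := by
    simp only [𝒥, mem_filter, mem_univ, true_and]
    intro v
    rw [bd_symmDiff, bd_single]; ring
  obtain ⟨⟨J', a, b⟩, hJ'mem, hJ'min⟩ :=
    Finset.exists_min_image 𝒥 (fun q => ∑ e ∈ q.1, c e) ⟨_, hmem0⟩
  have hbdJ' : ∀ v, bd s t J' v = bd s t F v + one a v + one b v := by
    have := hJ'mem
    simp only [𝒥, mem_filter, mem_univ, true_and] at this
    exact this
  have hmin : ∀ (K : Finset E) (a' b' : V), (∀ v, bd s t K v = bd s t F v + one a' v + one b' v) →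
      ∑ e ∈ J', c e ≤ ∑ e ∈ K, c e := by
    intro K a' b' h
    exact hJ'min (K, a', b') (by simp only [𝒥, mem_filter, mem_univ, true_and]; exact h)
  have hlt : ∑ e ∈ J', c e < ∑ e ∈ F, c e := by
    have h1 := hJ'min _ hmem0
    simp only at h1
    have h2 : ∑ e ∈ symmDiff F {e0}, c e = ∑ e ∈ F, c e - c e0 := by
      rw [sum_symmDiff_real]
      have : F ∩ {e0} = {e0} := by
        ext x; simp only [mem_inter, mem_singleton]; constructor
        · exact fun h => h.2
        · rintro rfl; exact ⟨he0, rfl⟩
      rw [this]; simp; ring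
    linarith
  let S : Finset V := univ.filter (fun v => Z s t c b v)
  have hS : ∀ v, v ∈ S ↔ Z s t c b v := by intro v; simp [S]
  have hSpos : ∀ e ∈ cut s t S, 0 < c e := by
    intro e he
    rcases (hc e).lt_or_eq with h | h
    · exact h
    · exfalso
      rw [mem_cut, hS, hS] at he
      apply he
      have hz := Z_edge s t c e h.symm
      exact ⟨fun h1 => Z_trans s t c h1 hz, fun h1 => Z_trans s t c h1 (Z_symm s t c hz)⟩
  -- Claim 1
  have claim1 : ∀ (K : Finset E) (a' b' : V), (∀ v, bd s t K v = bd s t F v + one a' v + one b' v) →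
      ∑ e ∈ K, c e ≤ ∑ e ∈ J', c e → b' ∈ S → ∀ g ∈ K, g ∉ cut s t S := by
    intro K a' b' hK hKc hb' g hgK hgS
    have hgpos := hSpos g hgS
    -- endpoints
    have : ∃ x x' : V, x ∈ S ∧ (∀ v, one (s g) v + one (t g) v = one x v + one x' v) := by
      rw [mem_cut] at hgS
      by_cases h1 : s g ∈ S
      · exact ⟨s g, t g, h1, fun v => rfl⟩
      · by_cases h2 : t g ∈ S
        · exact ⟨t g, s g, h2, fun v => add_comm _ _⟩
        · exact absurd (iff_of_false h1 h2) hgS
    obtain ⟨x, x', hx, hxx'⟩ := this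
    have hZ : Z s t c b' x := Z_trans s t c (Z_symm s t c ((hS b').mp hb')) ((hS x).mp hx)
    obtain ⟨Q, hQ0, hQbd⟩ := hZ
    have h3 : ∀ v, bd s t (symmDiff (symmDiff K {g}) Q) v = bd s t F v + one a' v + one x' v := by
      intro v
      rw [bd_symmDiff, bd_symmDiff, bd_single, hK, hQbd, hxx']
      have h1 : one b' v + one b' v = 0 := CharTwo.add_self_eq_zero _
      have h2 : one x v + one x v = 0 := CharTwo.add_self_eq_zero _
      linear_combination h1 + h2
    have h4 := hmin _ _ _ h3
    rw [sum_symmDiff_zero _ _ _ hQ0, sum_symmDiff_real] at h4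
    have : K ∩ {g} = {g} := by
      ext x; simp only [mem_inter, mem_singleton]; constructor
      · exact fun h => h.2
      · rintro rfl; exact ⟨hgK, rfl⟩
    rw [this] at h4
    simp at h4
    linarith
  -- a not in S
  have haS : a ∉ S := by
    intro ha
    obtain ⟨Q, hQ0, hQbd⟩ := (hS a).mp ha
    have h3 : ∀ v, bd s t (symmDiff J' Q) v = bd s t F v := by
      intro v
      rw [bd_symmDiff, hbdJ', hQbd]
      have h1 : one b v + one b v = 0 := CharTwo.add_self_eq_zero _
      have h2 : one a v + one a v = 0 := CharTwo.add_self_eq_zero _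
      linear_combination h1 + h2
    have h4 := hF _ h3
    rw [sum_symmDiff_zero _ _ _ hQ0] at h4
    linarith
  have hbS : b ∈ S := (hS b).mpr (Z_refl s t c b)
  refine ⟨S, hSpos, ?_⟩
  intro J hJ hJc
  -- P = J symmDiff J'
  set P := symmDiff J J' with hP
  have hbdP : ∀ v, bd s t P v = one a v + one b v := by
    intro v
    rw [hP, bd_symmDiff, hJ, hbdJ']
    have h1 : bd s t F v + bd s t F v = 0 := CharTwo.add_self_eq_zero _
    linear_combination h1
  let R : Finset V := univ.filter (fun v => ∃ Q : Finset E, Q ⊆ P ∧ (∀ e ∈ Q, e ∉ cut s t S) ∧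
    ∀ x, bd s t Q x = one a x + one v x)
  have hR : ∀ v, v ∈ R ↔ ∃ Q : Finset E, Q ⊆ P ∧ (∀ e ∈ Q, e ∉ cut s t S) ∧
    ∀ x, bd s t Q x = one a x + one v x := by intro v; simp [R]
  have haR : a ∈ R := by
    rw [hR]
    refine ⟨∅, by simp, by simp, fun x => ?_⟩
    rw [bd_empty]; exact (CharTwo.add_self_eq_zero _).symm
  have hRS : ∀ v ∈ R, v ∉ S := by
    intro v hv hvS
    obtain ⟨Q, _, hQ2, hQ3⟩ := (hR v).mp hv
    have h1 := sum_bd s t Q S
    have h2 : Q ∩ cut s t S = ∅ := by
      ext e; simp only [mem_inter, notMem_empty, iff_false, not_and]; exact hQ2 e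
    rw [h2] at h1
    simp only [hQ3, sum_add_distrib, sum_one, haS, hvS, if_true, if_false] at h1
    simp at h1
  have hbR : b ∉ R := fun h => hRS b h hbS
  have hodd := sum_bd s t P R
  simp only [hbdP, sum_add_distrib, sum_one, haR, hbR, if_true, if_false, add_zero] at hodd
  have hne : (P ∩ cut s t R).Nonempty := by
    rw [Finset.nonempty_iff_ne_empty]
    intro h; rw [h] at hodd; simp at hodd
  obtain ⟨e, he⟩ := hne
  rw [mem_inter] at he
  obtain ⟨heP, heR⟩ := he
  -- endpoints x in R, x' not in R
  have : ∃ x x' : V, x ∈ R ∧ x' ∉ R ∧ (∀ v, one (s e) v + one (t e) v = one x v + one x' v) ∧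
      (e ∈ cut s t S ↔ ¬ (x ∈ S ↔ x' ∈ S)) := by
    rw [mem_cut] at heR
    by_cases h1 : s e ∈ R
    · refine ⟨s e, t e, h1, fun h2 => heR (iff_of_true h1 h2), fun v => rfl, ?_⟩
      rw [mem_cut]
    · by_cases h2 : t e ∈ R
      · refine ⟨t e, s e, h2, h1, fun v => add_comm _ _, ?_⟩
        rw [mem_cut]; exact not_congr ⟨Iff.symm, Iff.symm⟩
      · exact absurd (iff_of_false h1 h2) heR
  obtain ⟨x, x', hxR, hx'R, hxx', hcutiff⟩ := this
  obtain ⟨Q, hQP, hQcut, hQbd⟩ := (hR x).mp hxR
  have heS : e ∈ cut s t S := by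
    by_contra hcon
    apply hx'R
    rw [hR]
    refine ⟨symmDiff Q {e}, ?_, ?_, ?_⟩
    · intro g hg
      rw [Finset.mem_symmDiff] at hg
      rcases hg with hg | hg
      · exact hQP hg.1
      · rw [mem_singleton] at hg; rw [hg.1]; exact heP
    · intro g hg
      rw [Finset.mem_symmDiff] at hg
      rcases hg with hg | hg
      · exact hQcut g hg.1
      · rw [mem_singleton] at hg; rw [hg.1]; exact hcon
    · intro v
      rw [bd_symmDiff, bd_single, hQbd, hxx']
      have h1 : one x v + one x v = 0 := CharTwo.add_self_eq_zero _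
      linear_combination h1
  have hx'S : x' ∈ S := by
    have h1 := hRS x hxR
    have h2 := hcutiff.mp heS
    by_contra h3
    exact h2 (iff_of_false h1 h3)
  have heQ : e ∉ Q := fun h => hQcut e h heS
  set P' := symmDiff Q {e} with hP'
  have hP'mem : ∀ g, g ∈ P' ↔ (g ∈ Q ∨ g = e) := by
    intro g
    rw [hP', Finset.mem_symmDiff, mem_singleton]
    constructor
    · rintro (h | h)
      · exact Or.inl h.1
      · exact Or.inr h.1
    · rintro (h | h)
      · exact Or.inl ⟨h, fun h' => heQ (h' ▸ h)⟩
      · exact Or.inr ⟨h, fun h' => heQ (h ▸ h')⟩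
  have hP'P : P' ⊆ P := by
    intro g hg
    rcases (hP'mem g).mp hg with h | h
    · exact hQP h
    · rw [h]; exact heP
  have hbdP' : ∀ v, bd s t P' v = one a v + one x' v := by
    intro v
    rw [hP', bd_symmDiff, bd_single, hQbd, hxx']
    have h1 : one x v + one x v = 0 := CharTwo.add_self_eq_zero _
    linear_combination h1
  -- the complement
  have hbdC : ∀ v, bd s t (symmDiff P P') v = one b v + one x' v := by
    intro v
    rw [bd_symmDiff, hbdP, hbdP']
    have h1 : one a v + one a v = 0 := CharTwo.add_self_eq_zero _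
    linear_combination h1
  obtain ⟨Q', hQ'0, hQ'bd⟩ := (hS x').mp hx'S
  have hT : ∀ v, bd s t (symmDiff (symmDiff J (symmDiff P P')) Q') v = bd s t F v := by
    intro v
    rw [bd_symmDiff, bd_symmDiff, hJ, hbdC, hQ'bd]
    have h1 : one b v + one b v = 0 := CharTwo.add_self_eq_zero _
    have h2 : one x' v + one x' v = 0 := CharTwo.add_self_eq_zero _
    linear_combination h1 + h2
  have h5 := hF _ hT
  rw [sum_symmDiff_zero _ _ _ hQ'0] at h5
  -- cost computation
  have hkey : ∑ e ∈ symmDiff J P', c e ≤ ∑ e ∈ J', c e := by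
    have hJJ' : J' = symmDiff J P := by
      rw [hP, symmDiff_symmDiff_cancel_left]
    have e1 := sum_symmDiff_real J P c
    have e2 := sum_symmDiff_real J P' c
    have e3 := sum_symmDiff_real J (symmDiff P P') c
    have hdiff : symmDiff P P' = P \ P' := by
      ext g; rw [Finset.mem_symmDiff, mem_sdiff]
      constructor
      · rintro (h | h)
        · exact h
        · exact absurd (hP'P h.1) h.2
      · exact fun h => Or.inl h
    rw [hdiff] at e3 h5
    have e4 : ∑ e ∈ P, c e = ∑ e ∈ P \ P', c e + ∑ e ∈ P', c e := (sum_sdiff hP'P).symm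
    have e5 : ∑ e ∈ J ∩ P, c e = ∑ e ∈ J ∩ (P \ P'), c e + ∑ e ∈ J ∩ P', c e := by
      rw [← sum_union]
      · congr 1; ext g; simp only [mem_inter, mem_union, mem_sdiff]
        constructor
        · rintro ⟨h1, h2⟩
          by_cases h3 : g ∈ P'
          · exact Or.inr ⟨h1, h3⟩
          · exact Or.inl ⟨h1, h2, h3⟩
        · rintro (h | h)
          · exact ⟨h.1, h.2.1⟩
          · exact ⟨h.1, hP'P h.2⟩
      · rw [Finset.disjoint_left]; intro g hg1 hg2
        simp only [mem_inter, mem_sdiff] at hg1 hg2
        exact hg1.2.2 hg2.2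
    rw [hJJ', e1, e2]
    linarith
  have hbdJ'' : ∀ v, bd s t (symmDiff J P') v = bd s t F v + one a v + one x' v := by
    intro v
    rw [bd_symmDiff, hJ, hbdP']; ring
  have h6 := claim1 _ _ _ hbdJ'' hkey hx'S
  -- conclude J ∩ cut = P' ∩ cut = {e}
  rw [Finset.card_eq_one]
  refine ⟨e, ?_⟩
  ext g
  simp only [mem_inter, mem_singleton]
  constructor
  · rintro ⟨hgJ, hgS⟩
    by_contra hge
    have hgP' : g ∉ P' := by
      intro h
      rcases (hP'mem g).mp h with h | h
      · exact hQcut g h hgS
      · exact hge h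
    exact h6 g (by rw [Finset.mem_symmDiff]; exact Or.inl ⟨hgJ, hgP'⟩) hgS
  · rintro rfl
    refine ⟨?_, heS⟩
    by_contra hgJ
    exact h6 g (by rw [Finset.mem_symmDiff]; exact Or.inr ⟨(hP'mem g).mpr (Or.inr rfl), hgJ⟩) heS

noncomputable def load (s t : E → V) (y : Finset V → ℝ) (e : E) : ℝ :=
  ∑ S : Finset V, if e ∈ cut s t S then y S else 0

lemma exists_pos_le {α : Type*} [Fintype α] (f : α → ℝ) : ∃ ε > 0, ∀ a, 0 < f a → ε ≤ f a := by
  let A : Finset ℝ := insert 1 ((univ.image f).filter (fun x => 0 < x))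
  have hA : A.Nonempty := ⟨1, mem_insert_self _ _⟩
  refine ⟨A.min' hA, ?_, ?_⟩
  · have := A.min'_mem hA
    simp only [A, mem_insert, mem_filter] at this
    rcases this with h | h
    · show 0 < A.min' hA
      rw [h]; norm_num
    · exact h.2
  · intro a ha
    apply A.min'_le
    simp only [A, mem_insert, mem_filter, mem_image, mem_univ, true_and]
    exact Or.inr ⟨⟨a, rfl⟩, ha⟩

lemma sum_load (s t : E → V) (y : Finset V → ℝ) (J : Finset E) :
    ∑ e ∈ J, load s t y e = ∑ S : Finset V, y S * ((J ∩ cut s t S).card : ℝ) := by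
  unfold load
  rw [sum_comm]
  refine sum_congr rfl (fun S _ => ?_)
  rw [← sum_filter, Finset.filter_mem_eq_inter, sum_const, nsmul_eq_mul, mul_comm]

lemma load_nonneg_le (s t : E → V) (y : Finset V → ℝ) (hy : ∀ S, 0 ≤ y S) (e : E) (S : Finset V)
    (he : e ∈ cut s t S) : y S ≤ load s t y e := by
  unfold load
  have h := Finset.single_le_sum (f := fun S : Finset V => if e ∈ cut s t S then y S else 0)
    (s := univ) (fun S _ => by by_cases h : e ∈ cut s t S <;> simp [h, hy S]) (mem_univ S)
  simp only [he, if_true] at h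
  exact h

/-- Fractional packing of cuts (Edmonds and Johnson). -/
theorem packing (s t : E → V) (c : E → ℝ) (hc : ∀ e, 0 ≤ c e) (F : Finset E)
    (hF : ∀ J : Finset E, (∀ v, bd s t J v = bd s t F v) → ∑ e ∈ F, c e ≤ ∑ e ∈ J, c e) :
    ∃ y : Finset V → ℝ, (∀ S, 0 ≤ y S) ∧ (∀ S, y S ≠ 0 → (F ∩ cut s t S).card = 1) ∧
      (∀ e, load s t y e ≤ c e) ∧ (∀ e ∈ F, load s t y e = c e) := by
  let K : Set (Finset V → ℝ) := {y | (∀ S, 0 ≤ y S) ∧ (∀ S, Even (F ∩ cut s t S).card → y S = 0) ∧
    (∀ e, load s t y e ≤ c e) ∧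
    (∀ J : Finset E, (∀ v, bd s t J v = bd s t F v) →
      ∑ e ∈ F, c e - ∑ S, y S ≤ ∑ e ∈ J, (c e - load s t y e))}
  have hcontload : ∀ e, Continuous (fun y : Finset V → ℝ => load s t y e) := by
    intro e
    unfold load
    refine continuous_finsetSum _ (fun S _ => ?_)
    by_cases h : e ∈ cut s t S
    · simp only [h, if_true]; exact continuous_apply S
    · simp only [h, if_false]; exact continuous_const
  have hcontsum : Continuous (fun y : Finset V → ℝ => ∑ S, y S) :=
    continuous_finsetSum _ (fun S _ => continuous_apply S)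
  have hclosed : IsClosed K := by
    have h1 : IsClosed {y : Finset V → ℝ | ∀ S, 0 ≤ y S} := by
      simp only [Set.ofPred_forall]
      exact isClosed_iInter (fun S => isClosed_le continuous_const (continuous_apply S))
    have h2 : IsClosed {y : Finset V → ℝ | ∀ S, Even (F ∩ cut s t S).card → y S = 0} := by
      simp only [Set.ofPred_forall]
      exact isClosed_iInter (fun S => isClosed_iInter fun _ =>
        isClosed_eq (continuous_apply S) continuous_const)
    have h3 : IsClosed {y : Finset V → ℝ | ∀ e, load s t y e ≤ c e} := by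
      simp only [Set.ofPred_forall]
      exact isClosed_iInter (fun e => isClosed_le (hcontload e) continuous_const)
    have h4 : IsClosed {y : Finset V → ℝ | ∀ J : Finset E, (∀ v, bd s t J v = bd s t F v) →
      ∑ e ∈ F, c e - ∑ S, y S ≤ ∑ e ∈ J, (c e - load s t y e)} := by
      simp only [Set.ofPred_forall]
      exact isClosed_iInter (fun J => isClosed_iInter fun _ =>
        isClosed_le (continuous_const.sub hcontsum)
          (continuous_finsetSum _ (fun e _ => continuous_const.sub (hcontload e))))
    exact h1.inter (h2.inter (h3.inter h4))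
  set B : ℝ := ∑ e, c e with hB
  have hsub : K ⊆ Set.pi Set.univ (fun _ : Finset V => Set.Icc (0 : ℝ) B) := by
    intro y hy S _
    obtain ⟨h1, h2, h3, _⟩ := hy
    refine ⟨h1 S, ?_⟩
    rcases Nat.even_or_odd (F ∩ cut s t S).card with h | h
    · rw [h2 S h]; exact sum_nonneg (fun e _ => hc e)
    · have hne : (F ∩ cut s t S).Nonempty := by
        rw [← Finset.card_pos]; exact h.pos
      obtain ⟨e, he⟩ := hne
      have h5 := load_nonneg_le s t y h1 e S (mem_inter.mp he).2
      have h6 := h3 e
      have h7 : c e ≤ B := single_le_sum (fun e _ => hc e) (mem_univ e)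
      linarith
  have hcomp : IsCompact K :=
    IsCompact.of_isClosed_subset (isCompact_univ_pi fun _ => isCompact_Icc) hclosed hsub
  have hload0 : ∀ e, load s t (0 : Finset V → ℝ) e = 0 := by
    intro e; unfold load; simp
  have h0 : (0 : Finset V → ℝ) ∈ K := by
    refine ⟨fun S => le_refl _, fun S _ => rfl, fun e => ?_, fun J hJ => ?_⟩
    · rw [hload0]; exact hc e
    · simp only [hload0, sub_zero, Pi.zero_apply, sum_const_zero]
      exact hF J hJ
  obtain ⟨y, hyK, hymax⟩ := hcomp.exists_isMaxOn ⟨0, h0⟩ hcontsum.continuousOn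
  obtain ⟨hy0, hyeven, hyload, hyJ⟩ := hyK
  let c' : E → ℝ := fun e => c e - load s t y e
  have hc' : ∀ e, 0 ≤ c' e := fun e => by simp only [c']; linarith [hyload e]
  have hcF : ∑ e ∈ F, c' e = ∑ e ∈ F, c e - ∑ S, y S * ((F ∩ cut s t S).card : ℝ) := by
    simp only [c']
    rw [sum_sub_distrib, sum_load]
  have hterm : ∀ S, y S ≤ y S * ((F ∩ cut s t S).card : ℝ) := by
    intro S
    rcases Nat.even_or_odd (F ∩ cut s t S).card with h | h
    · rw [hyeven S h]; simp
    · have : (1 : ℝ) ≤ ((F ∩ cut s t S).card : ℝ) := by exact_mod_cast h.pos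
      nlinarith [hy0 S]
  have hcF1 : ∑ e ∈ F, c' e ≤ ∑ e ∈ F, c e - ∑ S, y S := by
    rw [hcF]
    have := sum_le_sum (fun S (_ : S ∈ (univ : Finset (Finset V))) => hterm S)
    linarith
  have hcF2 : ∑ e ∈ F, c e - ∑ S, y S ≤ ∑ e ∈ F, c' e := hyJ F (fun v => rfl)
  have hcF3 : ∑ e ∈ F, c' e = ∑ e ∈ F, c e - ∑ S, y S := le_antisymm hcF1 hcF2
  have hFmin : ∀ J : Finset E, (∀ v, bd s t J v = bd s t F v) → ∑ e ∈ F, c' e ≤ ∑ e ∈ J, c' e := by
    intro J hJ
    rw [hcF3]; exact hyJ J hJ
  have hzero : ∑ e ∈ F, c' e = 0 := by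
    by_contra hne
    have hpos : 0 < ∑ e ∈ F, c' e := lt_of_le_of_ne (sum_nonneg (fun e _ => hc' e)) (Ne.symm hne)
    obtain ⟨S, hS1, hS2⟩ := exists_cut s t c' hc' F hFmin hpos
    obtain ⟨ε1, hε1, hε1'⟩ := exists_pos_le c'
    obtain ⟨ε2, hε2, hε2'⟩ := exists_pos_le (fun J : Finset E => ∑ e ∈ J, c' e - ∑ e ∈ F, c' e)
    let N : ℝ := (Fintype.card E : ℝ) + 1
    have hN : 0 < N := by positivity
    let ε : ℝ := min ε1 (ε2 / N)
    have hε : 0 < ε := lt_min hε1 (div_pos hε2 hN)
    have hεa : ε ≤ ε1 := min_le_left _ _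
    have hεb : ε * N ≤ ε2 := by
      have : ε ≤ ε2 / N := min_le_right _ _
      calc ε * N ≤ ε2 / N * N := mul_le_mul_of_nonneg_right this hN.le
        _ = ε2 := by field_simp
    let y' : Finset V → ℝ := fun S' => y S' + if S' = S then ε else 0
    have hload' : ∀ e, load s t y' e = load s t y e + if e ∈ cut s t S then ε else 0 := by
      intro e
      unfold load
      have : ∀ S' : Finset V, (if e ∈ cut s t S' then y' S' else 0) =
          (if e ∈ cut s t S' then y S' else 0) +
            (if S' = S then (if e ∈ cut s t S then ε else 0) else 0) := by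
        intro S'
        by_cases h1 : S' = S
        · subst h1
          by_cases h2 : e ∈ cut s t S' <;> simp [h2, y']
        · by_cases h2 : e ∈ cut s t S' <;> simp [h1, h2, y']
      rw [sum_congr rfl (fun S' _ => this S'), sum_add_distrib]
      congr 1
      simp
    have hsum' : ∑ S', y' S' = ∑ S', y S' + ε := by
      simp only [y', sum_add_distrib]
      simp
    have hy'K : y' ∈ K := by
      refine ⟨?_, ?_, ?_, ?_⟩
      · intro S'
        simp only [y']
        by_cases h : S' = S
        · simp only [h, if_true]; linarith [hy0 S]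
        · simp only [h, if_false]; linarith [hy0 S']
      · intro S' hS'
        have hodd := hS2 F (fun v => rfl) rfl
        have hne : S' ≠ S := by
          rintro rfl
          rw [hodd] at hS'
          exact absurd hS' (by decide)
        simp only [y', hne, if_false, add_zero]
        exact hyeven S' hS'
      · intro e
        rw [hload']
        by_cases h : e ∈ cut s t S
        · simp only [h, if_true]
          have h1 := hε1' e (hS1 e h)
          simp only [c'] at h1
          linarith
        · simp only [h, if_false]; linarith [hyload e]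
      · intro J hJ
        rw [hsum']
        have h1 : ∑ e ∈ J, (c e - load s t y' e) = ∑ e ∈ J, c' e - ε * ((J ∩ cut s t S).card : ℝ) := by
          have : ∀ e ∈ J, c e - load s t y' e = c' e - (if e ∈ cut s t S then ε else 0) := by
            intro e _; rw [hload']; simp only [c']; ring
          rw [sum_congr rfl this, sum_sub_distrib]
          congr 1
          rw [← sum_filter, Finset.filter_mem_eq_inter, sum_const, nsmul_eq_mul, mul_comm]
        rw [h1]
        rcases (hFmin J hJ).lt_or_eq with h | h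
        · have h2 := hε2' J (by simpa using h)
          have h3 : ((J ∩ cut s t S).card : ℝ) ≤ N := by
            have : (J ∩ cut s t S).card ≤ Fintype.card E := card_le_univ _
            have : ((J ∩ cut s t S).card : ℝ) ≤ (Fintype.card E : ℝ) := by exact_mod_cast this
            simp only [N]; linarith
          have h4 : ε * ((J ∩ cut s t S).card : ℝ) ≤ ε * N := mul_le_mul_of_nonneg_left h3 hε.le
          linarith
        · rw [hS2 J hJ h.symm]
          simp only [Nat.cast_one, mul_one]
          linarith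
    have := hymax hy'K
    simp only [Set.mem_ofPred_eq] at this
    rw [hsum'] at this
    linarith
  refine ⟨y, hy0, ?_, hyload, ?_⟩
  · -- complementary slackness
    have hsum : ∑ S, (y S * ((F ∩ cut s t S).card : ℝ) - y S) = 0 := by
      rw [sum_sub_distrib]; linarith
    have hall := (sum_eq_zero_iff_of_nonneg (fun S _ => sub_nonneg.mpr (hterm S))).mp hsum
    intro S hS
    have h1 := hall S (mem_univ S)
    have h2 : y S * (((F ∩ cut s t S).card : ℝ) - 1) = 0 := by linarith
    rcases mul_eq_zero.mp h2 with h | h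
    · exact absurd h hS
    · have : ((F ∩ cut s t S).card : ℝ) = 1 := by linarith
      exact_mod_cast this
  · intro e he
    have hall := (sum_eq_zero_iff_of_nonneg (fun e _ => hc' e)).mp hzero
    have := hall e he
    simp only [c'] at this
    linarith

/-- Balanced orientations of even edge sets. -/
lemma exists_orient (s t : E → V) : ∀ (n : ℕ) (J : Finset E) (a b : V), J.card = n →
    (∀ v, bd s t J v = one a v + one b v) →
    ∃ σ : E → ℝ, (∀ e, σ e = 1 ∨ σ e = -1) ∧
      ∀ g : V → ℝ, ∑ e ∈ J, σ e * (g (t e) - g (s e)) = g b - g a := by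
  intro n
  induction n with
  | zero =>
    intro J a b hJ hbd
    rw [card_eq_zero] at hJ
    subst hJ
    have h1 := hbd a
    rw [bd_empty] at h1
    have hab : b = a := by
      by_contra hne
      simp [one, hne] at h1
    subst hab
    exact ⟨fun _ => 1, fun _ => Or.inl rfl, fun g => by simp⟩
  | succ n ih =>
    intro J a b hJ hbd
    -- general step
    have step : ∀ (e : E) (c : V) (τ : ℝ), e ∈ J → (τ = 1 ∨ τ = -1) →
        (∀ v, one (s e) v + one (t e) v = one a v + one c v) →
        (∀ g : V → ℝ, τ * (g (t e) - g (s e)) = g c - g a) →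
        ∃ σ : E → ℝ, (∀ e, σ e = 1 ∨ σ e = -1) ∧
          ∀ g : V → ℝ, ∑ e ∈ J, σ e * (g (t e) - g (s e)) = g b - g a := by
      intro e c τ he hτ hone hg
      have hcard : (J.erase e).card = n := by rw [card_erase_of_mem he, hJ]; rfl
      have hbd' : ∀ v, bd s t (J.erase e) v = one c v + one b v := by
        intro v
        have h1 : bd s t J v = (one (s e) v + one (t e) v) + bd s t (J.erase e) v := by
          unfold bd; exact (add_sum_erase J _ he).symm
        rw [hbd, hone] at h1
        have h2 : one a v + one a v = 0 := CharTwo.add_self_eq_zero _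
        have h3 : one c v + one c v = 0 := CharTwo.add_self_eq_zero _
        linear_combination -h1 - h3
      obtain ⟨σ, hσ1, hσ2⟩ := ih (J.erase e) c b hcard hbd'
      refine ⟨Function.update σ e τ, ?_, ?_⟩
      · intro e'
        by_cases h : e' = e
        · subst h; simpa using hτ
        · simpa [Function.update_of_ne h] using hσ1 e'
      · intro g
        rw [← add_sum_erase J _ he]
        have h1 : ∑ e' ∈ J.erase e, Function.update σ e τ e' * (g (t e') - g (s e')) =
            ∑ e' ∈ J.erase e, σ e' * (g (t e') - g (s e')) := by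
          refine sum_congr rfl (fun e' he' => ?_)
          rw [Function.update_of_ne (ne_of_mem_erase he')]
        rw [h1, hσ2 g]
        simp only [Function.update_self]
        rw [hg g]; ring
    by_cases hab : a = b
    · subst hab
      have hne : J.Nonempty := by rw [← card_pos, hJ]; omega
      obtain ⟨e, he⟩ := hne
      -- remove e, use the step for the pair (t e, s e)
      have hcard : (J.erase e).card = n := by rw [card_erase_of_mem he, hJ]; rfl
      have hbd' : ∀ v, bd s t (J.erase e) v = one (t e) v + one (s e) v := by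
        intro v
        have h1 : bd s t J v = (one (s e) v + one (t e) v) + bd s t (J.erase e) v := by
          unfold bd; exact (add_sum_erase J _ he).symm
        rw [hbd] at h1
        have h2 : one a v + one a v = 0 := CharTwo.add_self_eq_zero _
        have h3 : one (s e) v + one (s e) v = 0 := CharTwo.add_self_eq_zero _
        have h4 : one (t e) v + one (t e) v = 0 := CharTwo.add_self_eq_zero _
        linear_combination -h1 + h2 - h3 - h4
      obtain ⟨σ, hσ1, hσ2⟩ := ih (J.erase e) (t e) (s e) hcard hbd'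
      refine ⟨Function.update σ e 1, ?_, ?_⟩
      · intro e'
        by_cases h : e' = e
        · subst h; simp
        · simpa [Function.update_of_ne h] using hσ1 e'
      · intro g
        rw [← add_sum_erase J _ he]
        have h1 : ∑ e' ∈ J.erase e, Function.update σ e 1 e' * (g (t e') - g (s e')) =
            ∑ e' ∈ J.erase e, σ e' * (g (t e') - g (s e')) := by
          refine sum_congr rfl (fun e' he' => ?_)
          rw [Function.update_of_ne (ne_of_mem_erase he')]
        rw [h1, hσ2 g]
        simp only [Function.update_self]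
        ring
    · have h1 : bd s t J a = 1 := by
        rw [hbd]; simp [one, Ne.symm hab]
      have h2 : ∃ e ∈ J, one (s e) a + one (t e) a ≠ 0 := by
        by_contra hcon
        push Not at hcon
        have : bd s t J a = 0 := by unfold bd; exact sum_eq_zero hcon
        rw [h1] at this
        exact one_ne_zero this
      obtain ⟨e, he, hne⟩ := h2
      by_cases hs : s e = a
      · exact step e (t e) 1 he (Or.inl rfl) (fun v => by rw [hs]) (fun g => by rw [hs]; ring)
      · by_cases ht : t e = a
        · exact step e (s e) (-1) he (Or.inr rfl) (fun v => by rw [ht]; ring)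
            (fun g => by rw [ht]; ring)
        · simp [one, hs, ht] at hne

/-- The finite case. -/
theorem finite_case {V I : Type*} [Fintype V] [Fintype I] (d : V → V → ℝ) (hd : ∀ u v, 0 ≤ d u v)
    (x y : I → V) (D : I → ℝ) (hD : ∀ i, 0 ≤ D i) (K : ℝ) (hK : 0 ≤ K)
    (H : ∀ α : I → ℝ, (∀ i, α i = 1 ∨ α i = -1) → ∃ g : V → ℝ,
      (∀ u v, |g u - g v| ≤ K * d u v) ∧ ∀ i, g (x i) - g (y i) = α i * D i) :
    ∃ f : I → V → ℝ, (∀ i j, f i (x j) - f i (y j) = if i = j then D i else 0) ∧
      ∀ u v, ∑ i, |f i u - f i v| ≤ K * d u v := by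
  let s : (V × V) ⊕ I → V := Sum.elim Prod.fst x
  let t : (V × V) ⊕ I → V := Sum.elim Prod.snd y
  let c : (V × V) ⊕ I → ℝ := Sum.elim (fun p => K * d p.1 p.2) D
  have hc : ∀ e, 0 ≤ c e := by
    rintro (p | i)
    · exact mul_nonneg hK (hd _ _)
    · exact hD i
  let F : Finset ((V × V) ⊕ I) := univ.image Sum.inr
  have hFmem : ∀ i, Sum.inr i ∈ F := fun i => mem_image_of_mem _ (mem_univ i)
  have hFnot : ∀ p, Sum.inl p ∉ F := by intro p hp; simp [F] at hp
  have hF : ∀ J : Finset ((V × V) ⊕ I), (∀ v, bd s t J v = bd s t F v) →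
      ∑ e ∈ F, c e ≤ ∑ e ∈ J, c e := by
    intro J hJ
    set C := symmDiff F J with hC
    have hbdC : ∀ v, bd s t C v = 0 := by
      intro v; rw [hC, bd_symmDiff, hJ]; exact CharTwo.add_self_eq_zero _
    -- orientation
    by_cases hV : Nonempty V
    · obtain ⟨v0⟩ := hV
      obtain ⟨σ, hσ1, hσ2⟩ := exists_orient s t C.card C v0 v0 rfl (fun v => by
        rw [hbdC]; exact (CharTwo.add_self_eq_zero _).symm)
      obtain ⟨g, hg1, hg2⟩ := H (fun i => σ (Sum.inr i)) (fun i => hσ1 _)
      have hsum := hσ2 g
      have hterm : ∀ e ∈ C, σ e * (g (t e) - g (s e)) ≤ c e - 2 * (if e ∈ F then c e else 0) := by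
        rintro (p | i) _
        · simp only [hFnot p, if_false, mul_zero, sub_zero]
          have h1 := hg1 p.2 p.1
          have h1' := hg1 p.1 p.2
          simp only [s, t, c, Sum.elim_inl]
          have h2 := abs_le.mp h1'
          rcases hσ1 (Sum.inl p) with h | h
          · rw [h]; linarith [h2.1]
          · rw [h]; linarith [h2.2]
        · simp only [hFmem i, if_true, s, t, c, Sum.elim_inr]
          have h1 := hg2 i
          rcases hσ1 (Sum.inr i) with h | h
          · rw [h] at h1 ⊢; linarith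
          · rw [h] at h1 ⊢; linarith
      have h3 := sum_le_sum hterm
      rw [hsum, sum_sub_distrib, ← mul_sum, ← sum_filter, Finset.filter_mem_eq_inter] at h3
      have h4 : J = symmDiff F C := by rw [hC, symmDiff_symmDiff_cancel_left]
      have h5 := sum_symmDiff_real F C c
      rw [← h4, inter_comm] at h5
      linarith
    · have : F = ∅ ∧ J = ∅ := by
        constructor
        · ext e; simp only [notMem_empty, iff_false]; intro _; exact hV ⟨s e⟩
        · ext e; simp only [notMem_empty, iff_false]; intro _; exact hV ⟨s e⟩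
      rw [this.1, this.2]
  obtain ⟨w, hw0, hw1, hw2, hw3⟩ := packing s t c hc F hF
  let ind : Finset V → V → ℝ := fun S u => if u ∈ S then 1 else 0
  let sg : Finset V → I → ℝ := fun S i =>
    if (Sum.inr i : (V × V) ⊕ I) ∈ cut s t S then (if x i ∈ S then 1 else -1) else 0
  refine ⟨fun i u => ∑ S, w S * sg S i * ind S u, ?_, ?_⟩
  · intro i j
    simp only
    rw [← sum_sub_distrib]
    by_cases hij : i = j
    · subst hij
      simp only [if_true]
      have h1 := hw3 (Sum.inr i) (hFmem i)
      have h2 : D i = c (Sum.inr i) := rfl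
      rw [h2, ← h1]
      unfold load
      refine sum_congr rfl (fun S _ => ?_)
      by_cases hS : (Sum.inr i : (V × V) ⊕ I) ∈ cut s t S
      · have h3 := (mem_cut s t S _).mp hS
        simp only [s, t, Sum.elim_inr] at h3
        simp only [sg, ind, hS, if_true]
        by_cases hx : x i ∈ S
        · have hy : y i ∉ S := fun hy => h3 (iff_of_true hx hy)
          simp only [hx, hy, if_true, if_false]; ring
        · have hy : y i ∈ S := by by_contra hy; exact h3 (iff_of_false hx hy)
          simp only [hx, hy, if_true, if_false]; ring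
      · simp only [sg, hS, if_false]; ring
    · simp only [hij, if_false]
      refine sum_eq_zero (fun S _ => ?_)
      by_cases hwS : w S = 0
      · rw [hwS]; ring
      · by_cases hS : (Sum.inr i : (V × V) ⊕ I) ∈ cut s t S
        · have h1 := hw1 S hwS
          rw [card_eq_one] at h1
          obtain ⟨e, he⟩ := h1
          have h2 : (Sum.inr i : (V × V) ⊕ I) ∈ F ∩ cut s t S := mem_inter.mpr ⟨hFmem i, hS⟩
          rw [he, mem_singleton] at h2
          have h3 : (Sum.inr j : (V × V) ⊕ I) ∉ cut s t S := by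
            intro h
            have h4 : (Sum.inr j : (V × V) ⊕ I) ∈ F ∩ cut s t S := mem_inter.mpr ⟨hFmem j, h⟩
            rw [he, mem_singleton] at h4
            exact hij (Sum.inr.inj (h2.trans h4.symm))
          rw [mem_cut] at h3
          simp only [s, t, Sum.elim_inr, not_not] at h3
          have h4 : ind S (x j) = ind S (y j) := by
            simp only [ind]; by_cases hx : x j ∈ S
            · simp only [hx, h3.mp hx, if_true]
            · have : y j ∉ S := fun h => hx (h3.mpr h)
              simp only [hx, this, if_false]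
          rw [h4]; ring
        · simp only [sg, hS, if_false]; ring
  · intro u v
    have h1 : ∀ i, |∑ S, w S * sg S i * ind S u - ∑ S, w S * sg S i * ind S v| ≤
        ∑ S, w S * (if (Sum.inr i : (V × V) ⊕ I) ∈ cut s t S then 1 else 0) *
          |ind S u - ind S v| := by
      intro i
      rw [← sum_sub_distrib]
      refine (abs_sum_le_sum_abs _ _).trans (sum_le_sum (fun S _ => ?_))
      rw [← mul_sub, abs_mul, abs_mul, abs_of_nonneg (hw0 S)]
      refine mul_le_mul_of_nonneg_right (mul_le_mul_of_nonneg_left ?_ (hw0 S)) (abs_nonneg _)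
      by_cases hS : (Sum.inr i : (V × V) ⊕ I) ∈ cut s t S
      · simp only [sg, hS, if_true]
        by_cases hx : x i ∈ S
        · simp [hx]
        · simp [hx]
      · simp only [sg, hS, if_false]; simp
    refine (sum_le_sum (fun i _ => h1 i)).trans ?_
    rw [sum_comm]
    have h2 : ∀ S, ∑ i, w S * (if (Sum.inr i : (V × V) ⊕ I) ∈ cut s t S then 1 else 0) *
          |ind S u - ind S v| = if (Sum.inl (u, v) : (V × V) ⊕ I) ∈ cut s t S then w S else 0 := by
      intro S
      by_cases hwS : w S = 0
      · rw [hwS]; simp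
      · rw [← sum_mul, ← mul_sum]
        have h3 : ∑ i, (if (Sum.inr i : (V × V) ⊕ I) ∈ cut s t S then (1 : ℝ) else 0) = 1 := by
          have h4 := hw1 S hwS
          have h5 : F ∩ cut s t S =
              (univ.filter (fun i : I => (Sum.inr i : (V × V) ⊕ I) ∈ cut s t S)).image Sum.inr := by
            ext e
            simp only [mem_inter, mem_image, mem_filter, mem_univ, true_and, F]
            constructor
            · rintro ⟨⟨i, rfl⟩, h⟩; exact ⟨i, h, rfl⟩
            · rintro ⟨i, h, rfl⟩; exact ⟨⟨i, rfl⟩, h⟩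
          rw [h5, card_image_of_injective _ Sum.inr_injective] at h4
          rw [← sum_filter, sum_const, h4]; simp
        rw [h3, mul_one]
        by_cases hS : (Sum.inl (u, v) : (V × V) ⊕ I) ∈ cut s t S
        · have h6 := (mem_cut s t S _).mp hS
          simp only [s, t, Sum.elim_inl] at h6
          simp only [hS, if_true]
          by_cases hu : u ∈ S
          · have hv : v ∉ S := fun hv => h6 (iff_of_true hu hv)
            simp [ind, hu, hv]
          · have hv : v ∈ S := by by_contra hv; exact h6 (iff_of_false hu hv)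
            simp [ind, hu, hv]
        · have h6 : (u ∈ S ↔ v ∈ S) := by
            by_contra h
            exact hS ((mem_cut s t S _).mpr h)
          simp only [hS, if_false]
          by_cases hu : u ∈ S
          · simp [ind, hu, h6.mp hu]
          · have hv : v ∉ S := fun h => hu (h6.mpr h)
            simp [ind, hu, hv]
    rw [sum_congr rfl (fun S _ => h2 S)]
    exact hw2 (Sum.inl (u, v))

end Pool.Agent.Helper43.TJoin
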